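import Mathlib

namespace Pool.Agent.H.MP_7acacd_co

def IsP (m : ℕ) (s : ℕ → ℕ) : Prop :=
  (∀ j < m, s j < m) ∧ ∀ i < m, ∀ j < m, s i = s j → i = j
def Up (s : ℕ → ℕ) (m d : ℕ) : Prop := ∀ j, j + d < m → s (j + d) = s j + d
def Dn (s : ℕ → ℕ) (m d : ℕ) : Prop := ∀ j, j + d < m → s (j + d) + d = s j
def HP (w : ℕ → Bool) (n d : ℕ) : Prop := ∀ j, j + d < n → w (j + d) = w j
def Pal (w : ℕ → Bool) (m : ℕ) : Prop := ∀ x ≤ m, w (m - x) = w x

theorem IsP.surj {m : ℕ} {s : ℕ → ℕ} (h : IsP m s) {v : ℕ} (hv : v < m) : ∃ j < m, s j = v := by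
  have := Finset.surj_on_of_inj_on_of_card_le (s := Finset.range m) (t := Finset.range m)
    (fun j _ => s j) (fun j hj => by simpa using h.1 j (by simpa using hj))
    (fun a b ha hb e => h.2 a (by simpa using ha) b (by simpa using hb) e) le_rfl v (by simpa)
  obtain ⟨j, hj, e⟩ := this
  exact ⟨j, by simpa using hj, e.symm⟩

theorem IsP.bord {m d : ℕ} {s : ℕ → ℕ} (h : IsP m s) (hu : Up s m d) : IsP (m - d) s := by
  refine ⟨fun j hj => ?_, fun i hi j hj => h.2 i (by omega) j (by omega)⟩
  have := hu j (by omega)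
  have := h.1 (j + d) (by omega)
  omega

theorem IsP.cut {m d : ℕ} {s : ℕ → ℕ} (h : IsP m s) (hu : Up s m d) (hd : d ≤ m) : IsP d s := by
  refine ⟨fun x hx => ?_, fun i hi j hj => h.2 i (by omega) j (by omega)⟩
  by_contra hc
  have h1 := h.1 x (by omega)
  obtain ⟨j, hj, e⟩ := (h.bord hu).surj (v := s x - d) (by omega)
  have := hu j (by omega)
  have := h.2 x (by omega) (j + d) (by omega) (by omega)
  omega

theorem IsP.ge {m x j : ℕ} {s : ℕ → ℕ} (h : IsP m s) (hx : IsP x s) (hj : j < m) (hxm : x ≤ j) :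
    x ≤ s j := by
  by_contra hc
  obtain ⟨i, hi, e⟩ := hx.surj (v := s j) (by omega)
  have := h.2 i (by omega) j hj e
  omega

theorem IsP.fix {x : ℕ} {s : ℕ → ℕ} (h : IsP (x + 1) s) (hx : IsP x s) : s x = x := by
  have := h.ge hx (j := x) (by omega) le_rfl
  have := h.1 x (by omega)
  omega

theorem Up.mul {s : ℕ → ℕ} {n g : ℕ} (h : Up s n g) (a : ℕ) : Up s n (a * g) := by
  induction a with
  | zero => intro j _; simp
  | succ a ih =>
    intro j hj
    rw [add_mul, one_mul] at hj ⊢
    rw [← add_assoc, h _ (by omega), ih j (by omega)]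
    omega

theorem HP.mul {w : ℕ → Bool} {n g : ℕ} (h : HP w n g) (a : ℕ) : HP w n (a * g) := by
  induction a with
  | zero => intro j _; simp
  | succ a ih =>
    intro j hj
    rw [add_mul, one_mul] at hj ⊢
    rw [← add_assoc, h _ (by omega), ih j (by omega)]

theorem sub_mul' {g p : ℕ} (h : g ∣ p) : ∃ a, p - g = a * g := by
  obtain ⟨c, rfl⟩ := h
  exact ⟨c - 1, by rw [Nat.sub_mul, one_mul, mul_comm]⟩

theorem fw {w : ℕ → Bool} {n : ℕ} : ∀ (t p q : ℕ), p + q = t → HP w n p → HP w n q → p + q ≤ n →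
    HP w n (Nat.gcd p q) := by
  intro t
  induction t using Nat.strong_induction_on with
  | _ t ih =>
    intro p q ht hp hq hn
    wlog hpq : p ≤ q generalizing p q
    · rw [Nat.gcd_comm]
      exact this q p (by omega) hq hp (by omega) (by omega)
    rcases Nat.eq_zero_or_pos p with rfl | h0
    · simpa using hq
    have h1 : HP w n (q - p) := by
      intro j hj
      by_cases h : j + q < n
      · rw [← hq j h, ← hp (j + (q - p)) (by omega)]
        congr 1; omega
      · have e1 := hp (j - p) (by omega)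
        have e2 := hq (j - p) (by omega)
        rw [show j - p + p = j by omega] at e1
        rw [show j + (q - p) = j - p + q by omega, e1, e2]
    have := ih (p + (q - p)) (by omega) p (q - p) rfl hp h1 (by omega)
    rwa [Nat.gcd_sub_self_right hpq] at this

theorem finish {s : ℕ → ℕ} {w w' : ℕ → Bool} {i p : ℕ} (hu : Up s (i + p) p)
    (hmin : ∀ e, 1 ≤ e → e < p → ¬ Up s (i + p) e)
    (ih : ∀ d, 1 ≤ d → d ≤ i → (Up s i d ↔ HP w' (i + 1) d))
    (h1 : ∀ x ≤ i, w x = w' x) (h2 : HP w (i + p + 1) p)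
    (h3 : ∀ e, 1 ≤ e → e < p → ¬ HP w (i + p + 1) e) :
    ∀ d, 1 ≤ d → d ≤ i + p → (Up s (i + p) d ↔ HP w (i + p + 1) d) := by
  intro d hd1 hd2
  rcases lt_trichotomy d p with h | rfl | h
  · exact iff_of_false (hmin d hd1 h) (h3 d hd1 h)
  · exact iff_of_true hu h2
  obtain ⟨e, rfl⟩ : ∃ e, d = e + p := ⟨d - p, by omega⟩
  have e1 : Up s (i + p) (e + p) ↔ Up s i e := by
    constructor
    · intro h j hj
      have := h j (by omega)
      have := hu (j + e) (by omega)
      rw [add_assoc] at this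
      omega
    · intro h j hj
      have := h j (by omega)
      have := hu (j + e) (by omega)
      rw [add_assoc] at this
      omega
  have e2 : HP w (i + p + 1) (e + p) ↔ HP w' (i + 1) e := by
    constructor
    · intro h j hj
      have a1 := h j (by omega)
      have a2 := h2 (j + e) (by omega)
      rw [add_assoc] at a2
      rw [← h1 _ (by omega), ← h1 _ (by omega), ← a1, a2]
    · intro h j hj
      have a1 := h j (by omega)
      have a2 := h2 (j + e) (by omega)
      rw [add_assoc] at a2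
      rw [a2, h1 _ (by omega), h1 _ (by omega), a1]
  rw [e1, e2]
  exact ih e (by omega) (by omega)

theorem up_ext {s : ℕ → ℕ} {m p g : ℕ} (hp : 0 < p) (hu : Up s m p) (hg : Up s p g)
    (hd : g ∣ p) : Up s m g := by
  obtain ⟨a, ha⟩ := sub_mul' hd
  have hgp := Nat.le_of_dvd hp hd
  intro j
  induction j using Nat.strong_induction_on with
  | _ j ih =>
    intro hj
    by_cases h1 : p ≤ j
    · have a1 := ih (j - p) (by omega) (by omega)
      have a2 := hu (j - p) (by omega)
      have a3 := hu (j - p + g) (by omega)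
      rw [show j - p + p = j by omega] at a2
      rw [show j - p + g + p = j + g by omega] at a3
      omega
    by_cases h2 : j + g < p
    · exact hg j h2
    have a1 := hu (j + g - p) (by omega)
    have a2 := hg.mul a (j + g - p) (by omega)
    rw [show j + g - p + p = j + g by omega] at a1
    rw [← ha, show j + g - p + (p - g) = j by omega] at a2
    omega

theorem case1 {s : ℕ → ℕ} {w' : ℕ → Bool} {i p : ℕ} (hs : IsP (i + p) s) (hp : p ≤ i + 1)
    (hp0 : 0 < p) (hu : Up s (i + p) p) (hmin : ∀ e, 1 ≤ e → e < p → ¬ Up s (i + p) e)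
    (pal : Pal w' i) (ih : ∀ d, 1 ≤ d → d ≤ i → (Up s i d ↔ HP w' (i + 1) d)) :
    ∃ w : ℕ → Bool, (∀ x ≤ i, w x = w' x) ∧ HP w (i + p + 1) p ∧ Pal w (i + p) ∧
      ∀ e, 1 ≤ e → e < p → ¬ HP w (i + p + 1) e := by
  have hw' : HP w' (i + 1) p := by
    by_cases h : p ≤ i
    · exact (ih p hp0 h).1 fun j hj => hu j (by omega)
    · intro j hj; omega
  set w : ℕ → Bool := fun x => if x ≤ i then w' x else w' (x - p) with hw
  have h1 : ∀ x ≤ i, w x = w' x := fun x hx => by simp [hw, hx]
  have h2 : HP w (i + p + 1) p := by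
    intro j hj
    rw [h1 j (by omega)]
    by_cases h : j + p ≤ i
    · rw [h1 _ h]; exact hw' j (by omega)
    · simp [hw, h]
  have h3 : ∀ x ≤ i, w (i + p - x) = w x := by
    intro x hx
    rw [show i + p - x = i - x + p by omega, h2 _ (by omega), h1 _ (by omega), h1 _ hx, pal x hx]
  refine ⟨w, h1, h2, fun x hx => ?_, fun e he1 he2 he => ?_⟩
  · by_cases h : x ≤ i
    · exact h3 x h
    · have := h3 (i + p - x) (by omega)
      rw [show i + p - (i + p - x) = x by omega] at this
      exact this.symm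
  have hg := fw _ p e rfl h2 he (by omega)
  set g := Nat.gcd p e
  have g1 : g ∣ p := Nat.gcd_dvd_left _ _
  have g2 : g ≤ e := Nat.le_of_dvd he1 (Nat.gcd_dvd_right _ _)
  have g3 : 0 < g := Nat.gcd_pos_of_pos_left _ hp0
  have u1 : Up s i g := (ih g g3 (by omega)).2 fun j hj => by
    rw [← h1 _ (by omega), ← h1 _ (by omega)]; exact hg j (by omega)
  refine hmin g g3 (by omega) (up_ext hp0 hu (fun j hj => ?_) g1)
  by_cases h : j + g < i
  · exact u1 j h
  obtain rfl : p = i + 1 := by omega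
  have si : IsP i s := by simpa using hs.bord hu
  have a1 : s i = i := (hs.cut hu (by omega)).fix si
  obtain ⟨a, ha⟩ := sub_mul' g1
  have a2 : IsP (i + 1 - g) s := si.cut (by rw [ha]; exact u1.mul a) (by omega)
  rw [show i + 1 - g = i - g + 1 by omega] at a2
  have a3 := a2.fix (si.bord u1)
  obtain rfl : j = i - g := by omega
  rw [show i - g + g = i by omega]
  omega

def mid (w' : ℕ → Bool) (i p : ℕ) (b : Bool) (x : ℕ) : Bool :=
  if x ≤ i then w' x else if x < p then b else w' (x - p)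

theorem case2 {w' : ℕ → Bool} {i p : ℕ} (hp : i + 2 ≤ p) (h0 : w' 0 = false) (pal : Pal w' i) :
    ∃ w : ℕ → Bool, (∀ x ≤ i, w x = w' x) ∧ HP w (i + p + 1) p ∧ Pal w (i + p) ∧
      ∀ e, 1 ≤ e → e < p → ¬ HP w (i + p + 1) e := by
  have h1 : ∀ b, ∀ x ≤ i, mid w' i p b x = w' x := fun b x hx => by simp [mid, hx]
  have hm : ∀ b x, i < x → x < p → mid w' i p b x = b := fun b x h1 h2 => by
    simp [mid, h2, h1.not_ge]
  have h2 : ∀ b, HP (mid w' i p b) (i + p + 1) p := by
    intro b j hj
    rw [h1 b j (by omega)]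
    simp [mid, show ¬ (j + p ≤ i) by omega]
  have h3 : ∀ b, ∀ x ≤ i, mid w' i p b (i + p - x) = mid w' i p b x := by
    intro b x hx
    rw [show i + p - x = i - x + p by omega, h2 _ _ (by omega), h1 _ _ (by omega), h1 _ _ hx,
      pal x hx]
  have h4 : ∀ b, Pal (mid w' i p b) (i + p) := by
    intro b x hx
    by_cases h : x ≤ i
    · exact h3 b x h
    by_cases h' : x < p
    · rw [hm b x (by omega) h', hm b _ (by omega) (by omega)]
    · have := h3 b (i + p - x) (by omega)
      rw [show i + p - (i + p - x) = x by omega] at this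
      exact this.symm
  by_contra hc
  push Not at hc
  obtain ⟨e1, a1, a2, a3⟩ := hc _ (h1 true) (h2 true) (h4 true)
  obtain ⟨e0, b1, b2, b3⟩ := hc _ (h1 false) (h2 false) (h4 false)
  have t1 : ∀ e, e < p → HP (mid w' i p true) (i + p + 1) e → e ≤ i := by
    intro e he h
    by_contra hh
    have := h 0 (by omega)
    rw [zero_add, hm _ _ (by omega) he, h1 _ _ (by omega), h0] at this
    simp at this
  have hg1 := fw _ p e1 rfl (h2 true) a3 (by have := t1 e1 a2 a3; omega)
  set g1 := Nat.gcd p e1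
  have g11 : g1 ∣ p := Nat.gcd_dvd_left _ _
  have g12 : g1 ≤ e1 := Nat.le_of_dvd a1 (Nat.gcd_dvd_right _ _)
  have g13 : 0 < g1 := Nat.gcd_pos_of_pos_left _ (by omega)
  obtain ⟨a, ha⟩ := sub_mul' g11
  have g14 : p - g1 ≤ i := t1 _ (by omega) (by rw [ha]; exact hg1.mul a)
  have wa : w' (p - 1 - g1) = true := by
    have := hg1 (p - 1 - g1) (by omega)
    rw [hm _ _ (by omega) (by omega), h1 _ _ (by omega)] at this
    exact this.symm
  have t0 : ∀ e, e < p → HP (mid w' i p false) (i + p + 1) e → e ≤ i := by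
    intro e he h
    by_contra hh
    have : ∀ x ≤ i, w' x = false := by
      intro x
      induction x using Nat.strong_induction_on with
      | _ x ih =>
        intro hx
        have c1 := h x (by omega)
        rw [h1 _ _ hx] at c1
        by_cases c2 : x + e < p
        · rw [← c1, hm _ _ (by omega) c2]
        · rw [← c1, show x + e = x + e - p + p by omega, h2 _ _ (by omega), h1 _ _ (by omega)]
          exact ih _ (by omega) (by omega)
    rw [this _ (by omega)] at wa
    simp at wa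
  have hg0 := fw _ p e0 rfl (h2 false) b3 (by have := t0 e0 b2 b3; omega)
  set g0 := Nat.gcd p e0
  have g01 : g0 ∣ p := Nat.gcd_dvd_left _ _
  have g02 : g0 ≤ e0 := Nat.le_of_dvd b1 (Nat.gcd_dvd_right _ _)
  have g03 : 0 < g0 := Nat.gcd_pos_of_pos_left _ (by omega)
  obtain ⟨b, hb⟩ := sub_mul' g01
  have g04 : p - g0 ≤ i := t0 _ (by omega) (by rw [hb]; exact hg0.mul b)
  have wb : w' (p - 1 - g0) = false := by
    have := hg0 (p - 1 - g0) (by omega)
    rw [hm _ _ (by omega) (by omega), h1 _ _ (by omega)] at this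
    exact this.symm
  have k1 : g1 ≤ p - g1 := Nat.le_of_dvd (by omega) (by rw [ha]; exact Dvd.intro_left _ rfl)
  have k0 : g0 ≤ p - g0 := Nat.le_of_dvd (by omega) (by rw [hb]; exact Dvd.intro_left _ rfl)
  by_cases hg : g0 = g1
  · rw [hg, wa] at wb
    simp at wb
  have c0 := hg0 (p - 1 - g0 - g1) (by omega)
  have c1 := hg1 (p - 1 - g0 - g1) (by omega)
  rw [show p - 1 - g0 - g1 + g0 = p - 1 - g1 by omega, h1 _ _ (by omega), h1 _ _ (by omega),
    wa] at c0
  rw [show p - 1 - g0 - g1 + g1 = p - 1 - g0 by omega, h1 _ _ (by omega), h1 _ _ (by omega),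
    wb, ← c0] at c1
  simp at c1

theorem exists_pal (s : ℕ → ℕ) (m : ℕ) : IsP m s → ∃ w : ℕ → Bool, w 0 = false ∧ Pal w m ∧
    ∀ d, 1 ≤ d → d ≤ m → (Up s m d ↔ HP w (m + 1) d) := by
  classical
  induction m using Nat.strong_induction_on with
  | _ m ih =>
    intro hs
    rcases Nat.eq_zero_or_pos m with rfl | hm
    · exact ⟨fun _ => false, rfl, fun _ _ => rfl, fun d h1 h2 => by omega⟩
    have hex : ∃ p, 1 ≤ p ∧ Up s m p := ⟨m, hm, fun j hj => by omega⟩
    have hp := Nat.find_spec hex
    have hle : Nat.find hex ≤ m := Nat.find_min' hex ⟨hm, fun j hj => by omega⟩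
    have hmin : ∀ e, 1 ≤ e → e < Nat.find hex → ¬ Up s m e := fun e h1 h2 h3 =>
      Nat.find_min hex h2 ⟨h1, h3⟩
    generalize Nat.find hex = p at hp hle hmin
    obtain ⟨i, rfl⟩ : ∃ i, m = i + p := ⟨m - p, by omega⟩
    obtain ⟨w', h0, pal, h1⟩ := ih i (by omega) (by simpa using hs.bord hp.2)
    obtain ⟨w, a1, a2, a3, a4⟩ : ∃ w : ℕ → Bool, (∀ x ≤ i, w x = w' x) ∧ HP w (i + p + 1) p ∧
        Pal w (i + p) ∧ ∀ e, 1 ≤ e → e < p → ¬ HP w (i + p + 1) e := by
      by_cases h : p ≤ i + 1
      · exact case1 hs h hp.1 hp.2 hmin pal h1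
      · exact case2 (by omega) h0 pal
    exact ⟨w, by rw [a1 0 (by omega), h0], a3, finish hp.2 hmin h1 a1 a2 a4⟩

def comp (k : ℕ) (s : ℕ → ℕ) (j : ℕ) : ℕ := k - 1 - s j

theorem IsP.comp {k : ℕ} {s : ℕ → ℕ} (h : IsP k s) : IsP k (comp k s) := by
  refine ⟨fun j hj => by simp only [MP_7acacd_co.comp]; omega, fun i hi j hj e => ?_⟩
  have := h.1 i hi
  have := h.1 j hj
  simp only [MP_7acacd_co.comp] at e
  exact h.2 i hi j hj (by omega)

theorem up_comp {k d : ℕ} {s : ℕ → ℕ} (h : IsP k s) : Up (comp k s) k d ↔ Dn s k d := by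
  refine forall_congr' fun j => imp_congr_right fun hj => ?_
  have := h.1 j (by omega)
  have := h.1 (j + d) hj
  simp only [comp]; omega

theorem dn_comp {k d : ℕ} {s : ℕ → ℕ} (h : IsP k s) : Dn (comp k s) k d ↔ Up s k d := by
  refine forall_congr' fun j => imp_congr_right fun hj => ?_
  have := h.1 j (by omega)
  have := h.1 (j + d) hj
  simp only [comp]; omega

theorem cut_no_dn {k x d : ℕ} {s : ℕ → ℕ} (h : IsP k s) (hx : IsP x s) (x0 : 0 < x) (xk : x < k)
    (d0 : 1 ≤ d) (dk : d < k) : ¬ Dn s k d := by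
  intro hd
  by_cases h1 : x + d ≤ k
  · obtain ⟨j, hj, e⟩ := hx.surj x0
    have := hd j (by omega)
    omega
  · obtain ⟨j, hj, e⟩ := (h.comp.bord ((up_comp h).2 hd)).surj (v := 0) (by omega)
    have := hx.1 j (by omega)
    simp only [comp] at e
    omega

open Classical in
noncomputable def sw (w : ℕ → Bool) (j : ℕ) : ℕ :=
  if w (j + 1) = w 0 then Nat.findGreatest (fun x => w x = w 0) j else j + 1

theorem sw_le {w : ℕ → Bool} {j : ℕ} : sw w j ≤ j ↔ w (j + 1) = w 0 := by
  unfold sw
  split_ifs with h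
  · simp [h, Nat.findGreatest_le]
  · simp [h]

theorem sw_isP {w : ℕ → Bool} {x : ℕ} (hx : w x = w 0) : IsP x (sw w) := by
  classical
  refine ⟨fun j hj => ?_, fun i _ j _ e => ?_⟩
  · by_cases h : w (j + 1) = w 0
    · have := sw_le.2 h; omega
    · have : j + 1 ≠ x := fun e => h (e ▸ hx)
      simp only [sw, if_neg h]; omega
  · have sp : ∀ j, w (Nat.findGreatest (fun x => w x = w 0) j) = w 0 := fun j =>
      Nat.findGreatest_spec (P := fun x => w x = w 0) (m := 0) (Nat.zero_le j) rfl
    unfold sw at e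
    split_ifs at e with h1 h2 h2
    · by_contra hne
      rcases lt_or_gt_of_ne hne with h | h
      · have := Nat.le_findGreatest (P := fun x => w x = w 0) (m := i + 1) (n := j) h h1
        have := Nat.findGreatest_le (P := fun x => w x = w 0) i
        omega
      · have := Nat.le_findGreatest (P := fun x => w x = w 0) (m := j + 1) (n := i) h h2
        have := Nat.findGreatest_le (P := fun x => w x = w 0) j
        omega
    · exact absurd (e ▸ sp i) h2
    · exact absurd (e ▸ sp j) h1
    · omega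

theorem bool_eq {a b c : Bool} (h : a = c ↔ b = c) : a = b := by
  revert h; cases a <;> cases b <;> cases c <;> simp

theorem sw_up {w : ℕ → Bool} {k d : ℕ} (hk : w k = w 0) (d0 : 1 ≤ d) (dk : d ≤ k) :
    Up (sw w) k d ↔ HP w (k + 1) d := by
  classical
  constructor
  · intro h x hx
    rcases x with _ | j
    · have := ((sw_isP hk).cut h dk).1 (d - 1) (by omega)
      have := (sw_le (w := w) (j := d - 1)).1 (by omega)
      rwa [show d - 1 + 1 = 0 + d by omega] at this
    · apply bool_eq (c := w 0)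
      rw [show j + 1 + d = j + d + 1 by omega, ← sw_le, ← sw_le, h j (by omega)]
      omega
  · intro h j hj
    have e1 := h (j + 1) (by omega)
    rw [show j + 1 + d = j + d + 1 by omega] at e1
    unfold sw
    rw [e1]
    split_ifs with h1
    · have sp : w (Nat.findGreatest (fun x => w x = w 0) j) = w 0 :=
        Nat.findGreatest_spec (P := fun x => w x = w 0) (m := 0) (Nat.zero_le j) rfl
      have le := Nat.findGreatest_le (P := fun x => w x = w 0) j
      rw [Nat.findGreatest_eq_iff]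
      refine ⟨by omega, fun _ => by rw [h _ (by omega)]; exact sp, fun n h2 h3 h4 => ?_⟩
      have := h (n - d) (by omega)
      rw [show n - d + d = n by omega, h4] at this
      have := Nat.le_findGreatest (P := fun x => w x = w 0) (m := n - d) (n := j) (by omega)
        this.symm
      omega
    · omega

theorem exists_perm {k : ℕ} (hk : 3 ≤ k) {w : ℕ → Bool} (hw : w k = w 0) :
    ∃ s, IsP k s ∧ ∀ d, 1 ≤ d → d < k → ((Up s k d ∨ Dn s k d) ↔ HP w (k + 1) d) := by
  have key : ∀ v : ℕ → Bool, v k = v 0 → ∀ x, 0 < x → x < k → v x = v 0 →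
      ∀ d, 1 ≤ d → d < k → ((Up (sw v) k d ∨ Dn (sw v) k d) ↔ HP v (k + 1) d) := by
    intro v hv x x0 xk hx d d0 dk
    rw [← sw_up hv d0 dk.le]
    have := cut_no_dn (sw_isP hv) (sw_isP hx) x0 xk d0 dk
    tauto
  by_cases h : ∃ x, 0 < x ∧ x < k ∧ w x = w 0
  · obtain ⟨x, x0, xk, hx⟩ := h
    exact ⟨_, sw_isP hw, key w hw x x0 xk hx⟩
  · set v : ℕ → Bool := fun x => decide (x ≤ 1 ∨ x = k) with hv
    have hvk : v k = v 0 := by simp [hv]
    refine ⟨_, sw_isP hvk, fun d d0 dk => ?_⟩
    rw [key v hvk 1 (by omega) (by omega) (by simp [hv]) d d0 dk]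
    apply iff_of_false
    · intro h1
      have a1 := h1 0 (by omega)
      have a2 := h1 (k - d) (by omega)
      simp [hv, show k - d + d = k by omega] at a1 a2
      omega
    · intro h1
      exact h ⟨d, d0, dk, by simpa using h1 0 (by omega)⟩

end Pool.Agent.H.MP_7acacd_co
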