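import Pool.Agent.H.MP_7acacd_co.A

namespace Pool.Agent.H.MP_7acacd_co

open Equiv Finset

def ext {k : ℕ} (σ : Perm (Fin k)) (j : ℕ) : ℕ := if h : j < k then σ ⟨j, h⟩ else j

theorem ext_lt {k j : ℕ} (σ : Perm (Fin k)) (h : j < k) : ext σ j = σ ⟨j, h⟩ := dif_pos h

theorem ext_isP {k : ℕ} (σ : Perm (Fin k)) : IsP k (ext σ) := by
  refine ⟨fun j hj => by rw [ext_lt σ hj]; exact (σ _).2, fun i hi j hj e => ?_⟩
  rw [ext_lt σ hi, ext_lt σ hj] at e
  simpa using σ.injective (Fin.ext e)

theorem ext_mul {k j : ℕ} (σ τ : Perm (Fin k)) (h : j < k) : ext (σ * τ) j = ext σ (ext τ j) := by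
  rw [ext_lt _ h, ext_lt τ h, ext_lt σ (τ _).2]
  rfl

theorem IsP.perm {k : ℕ} {s : ℕ → ℕ} (h : IsP k s) :
    ∃ σ : Perm (Fin k), ∀ j < k, ext σ j = s j := by
  have hi : Function.Injective fun j : Fin k => (⟨s j, h.1 j j.2⟩ : Fin k) := fun a b e =>
    Fin.ext (h.2 a a.2 b b.2 (by simpa using e))
  exact ⟨Equiv.ofBijective _ (Finite.injective_iff_bijective.1 hi), fun j hj => by
    rw [ext_lt _ hj]; rfl⟩

def OccAt (s : ℕ → ℕ) (k : ℕ) {n : ℕ} (π : Perm (Fin n)) (i : ℕ) : Prop :=
  i + k ≤ n ∧ ∃ c : ℤ, ∀ j < k, (ext π (i + j) : ℤ) = s j + c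

def Per (s : ℕ → ℕ) (k d : ℕ) : Prop := Up s k d ∨ Dn s k d

def Compat (s : ℕ → ℕ) (k : ℕ) (I : Finset ℕ) : Prop :=
  ∀ i ∈ I, ∀ i' ∈ I, i < i' → i' < i + k → Per s k (i' - i)

theorem overlap {s : ℕ → ℕ} {k n i d : ℕ} (hs : IsP k s) {π : Perm (Fin n)} (h1 : OccAt s k π i)
    (h2 : OccAt s k π (i + d)) (dk : d < k) : Per s k d := by
  obtain ⟨b1, c, h1⟩ := h1
  obtain ⟨b2, c', h2⟩ := h2
  have hp := ext_isP π
  have e : ∀ j, j + d < k → (s (j + d) : ℤ) = s j + (c' - c) := by
    intro j hj
    have a1 := h1 (j + d) hj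
    have a2 := h2 j (by omega)
    rw [show i + d + j = i + (j + d) by omega] at a2
    omega
  have back : ∀ j < k, ∀ j' < k, (s j' : ℤ) = s j + (c' - c) → j + d = j' := by
    intro j hj j' hj' h
    have a1 := h1 j' hj'
    have a2 := h2 j hj
    have := hp.2 (i + j') (by omega) (i + d + j) (by omega) (by omega)
    omega
  have b0 := hs.1 0 (by omega)
  have bd := hs.1 d dk
  have e0 := e 0 (by omega)
  rw [zero_add] at e0
  rcases le_total c c' with h | h
  · obtain ⟨t, ht⟩ : ∃ t : ℕ, c' - c = t := ⟨(c' - c).toNat, by omega⟩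
    have : (range (k - d)).card = (range (k - t)).card := by
      refine Finset.card_bij (fun j _ => s j) (fun j hj => ?_) (fun a ha b hb h => ?_)
        (fun v hv => ?_)
      · rw [mem_range] at hj ⊢
        have := e j (by omega)
        have := hs.1 (j + d) (by omega)
        omega
      · rw [mem_range] at ha hb
        exact hs.2 a (by omega) b (by omega) h
      · rw [mem_range] at hv
        obtain ⟨j, hj, a1⟩ := hs.surj (v := v) (by omega)
        obtain ⟨j', hj', a2⟩ := hs.surj (v := v + t) (by omega)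
        have := back j hj j' hj' (by omega)
        exact ⟨j, mem_range.2 (by omega), a1⟩
    rw [card_range, card_range] at this
    exact Or.inl fun j hj => by have := e j hj; omega
  · obtain ⟨t, ht⟩ : ∃ t : ℕ, c - c' = t := ⟨(c - c').toNat, by omega⟩
    have : (range (k - d)).card = (range (k - t)).card := by
      refine Finset.card_bij (fun j _ => s (j + d)) (fun j hj => ?_) (fun a ha b hb h => ?_)
        (fun v hv => ?_)
      · rw [mem_range] at hj ⊢
        have := e j (by omega)
        have := hs.1 j (by omega)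
        omega
      · rw [mem_range] at ha hb
        have := hs.2 (a + d) (by omega) (b + d) (by omega) h
        omega
      · rw [mem_range] at hv
        obtain ⟨j', hj', a1⟩ := hs.surj (v := v) (by omega)
        obtain ⟨j, hj, a2⟩ := hs.surj (v := v + t) (by omega)
        have := back j hj j' hj' (by omega)
        exact ⟨j, mem_range.2 (by omega), by rw [this, a1]⟩
    rw [card_range, card_range] at this
    exact Or.inr fun j hj => by have := e j hj; omega

theorem template {s : ℕ → ℕ} {k n : ℕ} (hs : IsP k s) {I : Finset ℕ} (hn : ∀ i ∈ I, i + k ≤ n)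
    (hc : ∀ i ∈ I, ∀ i' ∈ I, i < i' → i' < i + k → Up s k (i' - i)) :
    ∃ ρ : Perm (Fin n), ∀ i ∈ I, ∀ j < k, ext ρ (i + j) = i + s j := by
  classical
  set r : ℕ → ℕ := fun x => if h : ∃ i ∈ I, i ≤ x ∧ x < i + k then
    h.choose + s (x - h.choose) else x with hr
  have cons : ∀ i ∈ I, ∀ i' ∈ I, ∀ x, i ≤ i' → i' ≤ x → x < i + k →
      i + s (x - i) = i' + s (x - i') := by
    intro i hi i' hi' x h1 h2 h3
    rcases h1.eq_or_lt with rfl | h1
    · rfl
    have := hc i hi i' hi' h1 (by omega) (x - i') (by omega)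
    rw [show x - i' + (i' - i) = x - i by omega] at this
    omega
  have r1 : ∀ i ∈ I, ∀ x, i ≤ x → x < i + k → r x = i + s (x - i) := by
    intro i hi x h1 h2
    have h : ∃ i ∈ I, i ≤ x ∧ x < i + k := ⟨i, hi, h1, h2⟩
    have sp := h.choose_spec
    simp only [hr, dif_pos h]
    rcases le_total i h.choose with h3 | h3
    · exact (cons i hi _ sp.1 x h3 sp.2.1 h2).symm
    · exact cons _ sp.1 i hi x h3 h1 sp.2.2
  have r2 : ∀ x, (¬ ∃ i ∈ I, i ≤ x ∧ x < i + k) → r x = x := fun x h => by
    simp only [hr, dif_neg h]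
  have inj : ∀ i ∈ I, ∀ i' ∈ I, ∀ x y, i ≤ i' → i ≤ x → x < i + k → i' ≤ y → y < i' + k →
      i + s (x - i) = i' + s (y - i') → x = y := by
    intro i hi i' hi' x y h1 h2 h3 h4 h5 e
    rcases h1.eq_or_lt with rfl | h1
    · have := hs.2 (x - i) (by omega) (y - i) (by omega) (by omega)
      omega
    have b1 := hs.1 (x - i) (by omega)
    have hu := hc i hi i' hi' h1 (by omega)
    have b2 : y - i' < k - (i' - i) := by
      by_contra hh
      have := hs.ge (hs.bord hu) (j := y - i') (by omega) (by omega)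
      omega
    have := hu (y - i') (by omega)
    have := hs.2 (x - i) (by omega) (y - i' + (i' - i)) (by omega) (by omega)
    omega
  have hp : IsP n r := by
    refine ⟨fun x hx => ?_, fun x _ y _ e => ?_⟩
    · by_cases h : ∃ i ∈ I, i ≤ x ∧ x < i + k
      · obtain ⟨i, hi, h1, h2⟩ := h
        have := hs.1 (x - i) (by omega)
        have := hn i hi
        rw [r1 i hi x h1 h2]; omega
      · rw [r2 x h]; exact hx
    · by_cases h : ∃ i ∈ I, i ≤ x ∧ x < i + k <;> by_cases h' : ∃ i ∈ I, i ≤ y ∧ y < i + k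
      · obtain ⟨i, hi, h1, h2⟩ := h
        obtain ⟨i', hi', h3, h4⟩ := h'
        rw [r1 i hi x h1 h2, r1 i' hi' y h3 h4] at e
        rcases le_total i i' with h5 | h5
        · exact inj i hi i' hi' x y h5 h1 h2 h3 h4 e
        · exact (inj i' hi' i hi y x h5 h3 h4 h1 h2 e.symm).symm
      · obtain ⟨i, hi, h1, h2⟩ := h
        have := hs.1 (x - i) (by omega)
        rw [r1 i hi x h1 h2, r2 y h'] at e
        exact absurd ⟨i, hi, by omega, by omega⟩ h'
      · obtain ⟨i, hi, h1, h2⟩ := h'
        have := hs.1 (y - i) (by omega)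
        rw [r1 i hi y h1 h2, r2 x h] at e
        exact absurd ⟨i, hi, by omega, by omega⟩ h
      · rwa [r2 x h, r2 y h'] at e
  obtain ⟨ρ, hρ⟩ := hp.perm
  refine ⟨ρ, fun i hi j hj => ?_⟩
  have := hn i hi
  rw [hρ _ (by omega), r1 i hi _ (by omega) (by omega), show i + j - i = j by omega]

open Classical in
noncomputable def SS (s : ℕ → ℕ) (k n i : ℕ) : Finset (Perm (Fin n)) :=
  univ.filter fun π => OccAt s k π i

open Classical in
noncomputable def avs (s : ℕ → ℕ) (k n : ℕ) : ℕ :=
  (univ.filter fun π : Perm (Fin n) => ∀ i, ¬ OccAt s k π i).card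

theorem avs_eq (s : ℕ → ℕ) (k n : ℕ) : (avs s k n : ℤ) =
    ∑ I ∈ (range (n + 1 - k)).powerset, (-1 : ℤ) ^ I.card * (I.inf (SS s k n)).card := by
  rw [← inclusion_exclusion_card_inf_compl, avs]
  congr 2
  ext π
  simp only [mem_filter, mem_univ, true_and, Finset.mem_inf, mem_compl, SS, mem_range]
  exact ⟨fun h i _ => h i, fun h i hi => h i (by have := hi.1; omega) hi⟩

def NoDn (s : ℕ → ℕ) (k : ℕ) : Prop := ∀ d, 1 ≤ d → d < k → ¬ Dn s k d

open Classical in
theorem card_inf {s : ℕ → ℕ} {k n : ℕ} (hs : IsP k s) (hd : NoDn s k) {I : Finset ℕ}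
    (hn : ∀ i ∈ I, i + k ≤ n) : (I.inf (SS s k n)).card =
      if Compat s k I then (I.inf (SS id k n)).card else 0 := by
  split_ifs with h
  · obtain ⟨ρ, hρ⟩ := template hs hn fun i hi i' hi' h1 h2 =>
      (h i hi i' hi' h1 h2).resolve_right (hd _ (by omega) (by omega))
    symm
    refine Finset.card_bij (fun π _ => π * ρ) (fun π hπ => ?_) (fun a _ b _ e => by simpa using e)
      (fun π hπ => ⟨π * ρ⁻¹, ?_, by simp⟩)
    · simp only [Finset.mem_inf, SS, mem_filter, mem_univ, true_and] at hπ ⊢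
      intro i hi
      obtain ⟨b, c, hc⟩ := hπ i hi
      refine ⟨b, c, fun j hj => ?_⟩
      rw [ext_mul _ _ (by omega), hρ i hi j hj, hc _ (hs.1 j hj)]
      rfl
    · simp only [Finset.mem_inf, SS, mem_filter, mem_univ, true_and] at hπ ⊢
      intro i hi
      obtain ⟨b, c, hc⟩ := hπ i hi
      refine ⟨b, c, fun v hv => ?_⟩
      obtain ⟨j, hj, rfl⟩ := hs.surj hv
      rw [← hρ i hi j hj, ← ext_mul _ _ (by omega), inv_mul_cancel_right, hc j hj]
      rfl
  · rw [card_eq_zero, eq_empty_iff_forall_notMem]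
    intro π hπ
    simp only [Finset.mem_inf, SS, mem_filter, mem_univ, true_and] at hπ
    refine h fun i hi i' hi' h1 h2 => overlap hs (hπ i hi) ?_ (by omega)
    rw [show i + (i' - i) = i' by omega]
    exact hπ i' hi'

theorem avs_comp_le {s t : ℕ → ℕ} {k : ℕ} (hs : IsP k s) (ht : ∀ j < k, t j = comp k s j)
    (n : ℕ) : avs t k n ≤ avs s k n := by
  classical
  refine Finset.card_le_card_of_injOn (fun π => Fin.revPerm * π) (fun π hπ => ?_)
    (fun a _ b _ e => by simpa using e)
  simp only [coe_filter, mem_univ, true_and, Set.mem_ofPred_eq] at hπ ⊢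
  rintro i ⟨b, c, hc⟩
  refine hπ i ⟨b, n - k - c, fun j hj => ?_⟩
  have a1 := hc j hj
  have a2 := (ext_isP π).1 (i + j) (by omega)
  have a3 := hs.1 j hj
  rw [ext_mul _ _ (by omega), ext_lt _ a2] at a1
  simp only [Fin.revPerm_apply, Fin.val_rev] at a1
  rw [ht j hj, comp]
  omega

theorem avs_comp {s : ℕ → ℕ} {k : ℕ} (hs : IsP k s) (n : ℕ) : avs (comp k s) k n = avs s k n := by
  refine le_antisymm (avs_comp_le hs (fun _ _ => rfl) n) (avs_comp_le hs.comp (fun j hj => ?_) n)
  have := hs.1 j hj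
  simp only [comp]; omega

theorem reduce {s : ℕ → ℕ} {k : ℕ} (hs : IsP k s) : ∃ t, IsP k t ∧ NoDn t k ∧
    (∀ n, avs t k n = avs s k n) ∧ ∀ d, Per t k d ↔ Per s k d := by
  by_cases h : NoDn s k
  · exact ⟨s, hs, h, fun _ => rfl, fun _ => Iff.rfl⟩
  refine ⟨comp k s, hs.comp, fun d d0 dk hd => h fun e e0 ek => ?_, avs_comp hs, fun d => ?_⟩
  · rw [dn_comp hs] at hd
    exact cut_no_dn hs (hs.cut hd dk.le) d0 dk e0 ek
  · rw [Per, Per, up_comp hs, dn_comp hs, or_comm]

open Classical in
theorem avs_sub {s t : ℕ → ℕ} {k : ℕ} (hs : IsP k s) (ht : IsP k t) (ds : NoDn s k)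
    (dt : NoDn t k) (n : ℕ) : (avs s k n : ℤ) - avs t k n =
    ∑ I ∈ (range (n + 1 - k)).powerset, (-1 : ℤ) ^ I.card *
      (((if Compat s k I then 1 else 0) - (if Compat t k I then 1 else 0)) *
        (I.inf (SS id k n)).card) := by
  rw [avs_eq, avs_eq, ← sum_sub_distrib]
  refine sum_congr rfl fun I hI => ?_
  have hn : ∀ i ∈ I, i + k ≤ n := fun i hi => by
    have := mem_range.1 (mem_powerset.1 hI hi); omega
  rw [card_inf hs ds hn, card_inf ht dt hn]
  split_ifs <;> simp

theorem avs_ne {s t : ℕ → ℕ} {k d : ℕ} (hs : IsP k s) (ht : IsP k t) (ds : NoDn s k)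
    (dt : NoDn t k) (d0 : 1 ≤ d) (dk : d < k) (h1 : Per s k d) (h2 : ¬ Per t k d)
    (h3 : ∀ e, 1 ≤ e → e < d → (Per s k e ↔ Per t k e)) :
    avs s k (k + d) ≠ avs t k (k + d) := by
  classical
  intro h
  have key := avs_sub hs ht ds dt (k + d)
  rw [h, sub_self, sum_eq_single ({0, d} : Finset ℕ)] at key
  · have c1 : Compat s k {0, d} := by
      intro i hi i' hi' a1 a2
      simp only [mem_insert, mem_singleton] at hi hi'
      rwa [show i' - i = d by omega]
    have c2 : ¬ Compat t k {0, d} := fun c =>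
      h2 (by simpa using c 0 (by simp) d (by simp) (by omega) (by omega))
    have c3 : 0 < (({0, d} : Finset ℕ).inf (SS id k (k + d))).card := by
      refine card_pos.2 ⟨1, ?_⟩
      simp only [Finset.mem_inf, SS, mem_filter, mem_univ, true_and, mem_insert, mem_singleton]
      intro i hi
      refine ⟨by omega, i, fun j hj => ?_⟩
      rw [ext_lt _ (by omega)]
      simp [add_comm]
    rw [if_pos c1, if_neg c2, card_pair (by omega)] at key
    omega
  · intro I hI hne
    have hn : ∀ i ∈ I, i ≤ d := fun i hi => by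
      have := mem_range.1 (mem_powerset.1 hI hi); omega
    have : Compat s k I ↔ Compat t k I := by
      by_cases hb : 0 ∈ I ∧ d ∈ I
      · obtain ⟨e, he, e1, e2⟩ : ∃ e ∈ I, e ≠ 0 ∧ e ≠ d := by
          by_contra hh
          push Not at hh
          apply hne
          ext x
          simp only [mem_insert, mem_singleton]
          exact ⟨fun hx => by have := hh x hx; tauto, fun hx => by
            rcases hx with rfl | rfl; exacts [hb.1, hb.2]⟩
        have e3 := hn e he
        apply iff_of_false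
        · intro c
          have u1 := ((h3 _ (by omega) (by omega)).1
            (c 0 hb.1 e he (by omega) (by omega))).resolve_right (dt _ (by omega) (by omega))
          have u2 := ((h3 _ (by omega) (by omega)).1
            (c e he d hb.2 (by omega) (by omega))).resolve_right (dt _ (by omega) (by omega))
          refine h2 (Or.inl fun j hj => ?_)
          have a1 := u1 j (by omega)
          have a2 := u2 (j + (e - 0)) (by omega)
          rw [show j + (e - 0) + (d - e) = j + d by omega] at a2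
          omega
        · intro c
          exact h2 (by simpa using c 0 hb.1 d hb.2 (by omega) (by omega))
      · refine forall₂_congr fun i hi => forall₂_congr fun i' hi' => forall₂_congr fun a1 a2 => ?_
        have := hn i' hi'
        refine h3 _ (by omega) ?_
        by_contra hh
        obtain rfl : i = 0 := by omega
        obtain rfl : i' = d := by omega
        exact hb ⟨hi, hi'⟩
    simp [this]
  · intro hh
    exact absurd (mem_powerset.2 fun x hx => by
      simp only [mem_insert, mem_singleton] at hx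
      exact mem_range.2 (by omega)) hh

theorem avs_iff {s t : ℕ → ℕ} {k : ℕ} (hs : IsP k s) (ht : IsP k t) :
    (∀ n, avs s k n = avs t k n) ↔ ∀ d, 1 ≤ d → d < k → (Per s k d ↔ Per t k d) := by
  classical
  obtain ⟨s, hs, ds, a1, a2⟩ := reduce hs
  obtain ⟨t, ht, dt, b1, b2⟩ := reduce ht
  simp only [← a1, ← a2, ← b1, ← b2]
  constructor
  · intro h d
    induction d using Nat.strong_induction_on with
    | _ d ih =>
      intro d0 dk
      have h3 : ∀ e, 1 ≤ e → e < d → (Per s k e ↔ Per t k e) := fun e e0 ed =>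
        ih e ed e0 (by omega)
      constructor
      · intro h1
        by_contra h2
        exact avs_ne hs ht ds dt d0 dk h1 h2 h3 (h _)
      · intro h1
        by_contra h2
        exact avs_ne ht hs dt ds d0 dk h1 h2 (fun e e0 ed => (h3 e e0 ed).symm) (h _).symm
  · intro h n
    have key := avs_sub hs ht ds dt n
    rw [sum_eq_zero] at key
    · omega
    intro I _
    have : Compat s k I ↔ Compat t k I :=
      forall₂_congr fun i hi => forall₂_congr fun i' hi' => forall₂_congr fun a1 a2 =>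
        h _ (by omega) (by omega)
    simp [this]

end Pool.Agent.H.MP_7acacd_co
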