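import Pool.Agent.H.MP_7acacd_co.B

namespace Pool.Agent.H.MP_7acacd_co

open Equiv

theorem ncard_ker {X Y Z : Type*} (s : Set X) (f : X → Y) (g : X → Z)
    (h : ∀ x ∈ s, ∀ y ∈ s, f x = f y ↔ g x = g y) : (f '' s).ncard = (g '' s).ncard := by
  refine Set.ncard_congr (fun a ha => g ha.choose) (fun a ha => ⟨_, ha.choose_spec.1, rfl⟩)
    (fun a b ha hb e => ?_) ?_
  · rw [← ha.choose_spec.2, ← hb.choose_spec.2]
    exact (h _ ha.choose_spec.1 _ hb.choose_spec.1).2 e
  · rintro _ ⟨x, hx, rfl⟩
    have ha : f x ∈ f '' s := ⟨x, hx, rfl⟩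
    exact ⟨f x, ha, (h _ ha.choose_spec.1 _ hx).1 ha.choose_spec.2⟩

def WW (l : List Bool) (x : ℕ) : Bool := l.getD x false

theorem pal_iff {l : List Bool} :
    l.Palindrome ↔ ∀ x < l.length, WW l (l.length - 1 - x) = WW l x := by
  rw [List.Palindrome.iff_reverse_eq]
  constructor
  · intro h x hx
    have : l.reverse[x]'(by simpa using hx) = l[x] := by simp only [h]
    rw [List.getElem_reverse] at this
    simp only [WW]
    rw [List.getD_eq_getElem _ _ (by omega), List.getD_eq_getElem _ _ hx, this]
  · intro h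
    refine List.ext_getElem (by simp) fun x h1 h2 => ?_
    have := h x h2
    simp only [WW] at this
    rw [List.getD_eq_getElem _ _ (by omega), List.getD_eq_getElem _ _ h2] at this
    rw [List.getElem_reverse, this]

theorem take_pal {l : List Bool} {k i : ℕ} (hl : l.length = k + 1) (hp : l.Palindrome)
    (hi : i ≤ k + 1) : (l.take i).Palindrome ↔ HP (WW l) (k + 1) (k + 1 - i) := by
  rw [pal_iff] at hp ⊢
  have e : ∀ x < i, WW (l.take i) x = WW l x := by
    intro x hx
    simp only [WW]
    rw [List.getD_eq_getElem _ _ (by simp; omega), List.getD_eq_getElem _ _ (by omega),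
      List.getElem_take]
  rw [show (l.take i).length = i by simp; omega]
  rw [hl] at hp
  constructor
  · intro h j hj
    have a1 := h j (by omega)
    have a2 := hp (i - 1 - j) (by omega)
    rw [e _ (by omega), e _ (by omega)] at a1
    rw [← a1, ← a2]
    congr 1; omega
  · intro h x hx
    have a1 := h x (by omega)
    have a2 := hp (i - 1 - x) (by omega)
    rw [e _ (by omega), e _ (by omega), ← a1, ← a2]
    congr 1; omega

def PS (s : ℕ → ℕ) (k : ℕ) : Set ℕ := {d | 1 ≤ d ∧ d < k ∧ Per s k d}
def HS (k : ℕ) (l : List Bool) : Set ℕ := {d | 1 ≤ d ∧ d < k ∧ HP (WW l) (k + 1) d}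

theorem per_congr {s t : ℕ → ℕ} {k d : ℕ} (h : ∀ j < k, s j = t j) : Per s k d ↔ Per t k d := by
  refine or_congr ?_ ?_ <;> refine forall_congr' fun j => imp_congr_right fun hj => ?_ <;>
    rw [h _ hj, h j (by omega)]

theorem image_eq {k : ℕ} (hk : 3 ≤ k) :
    (fun σ : Perm (Fin k) => PS (ext σ) k) '' Set.univ =
      HS k '' {l | l.length = k + 1 ∧ l.Palindrome} := by
  ext D
  constructor
  · rintro ⟨σ, -, rfl⟩
    obtain ⟨t, ht, dt, -, h1⟩ := reduce (ext_isP σ)
    obtain ⟨w, -, pal, h2⟩ := exists_pal t k ht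
    set l := (List.range (k + 1)).map w with hl
    have len : l.length = k + 1 := by simp [hl]
    have e : ∀ x < k + 1, WW l x = w x := by
      intro x hx
      simp only [WW]
      rw [List.getD_eq_getElem _ _ (by omega)]
      simp [hl]
    refine ⟨l, ⟨len, ?_⟩, ?_⟩
    · rw [pal_iff, len]
      intro x hx
      rw [e _ hx, e _ (by omega)]
      exact pal x (by omega)
    · ext d
      refine and_congr_right fun d0 => and_congr_right fun dk => ?_
      rw [← h1, Per, or_iff_left (dt d d0 dk), h2 d d0 dk.le]
      refine forall_congr' fun j => imp_congr_right fun hj => ?_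
      rw [e _ hj, e _ (by omega)]
  · rintro ⟨l, ⟨len, pal⟩, rfl⟩
    have := pal_iff.1 pal 0 (by omega)
    rw [len] at this
    obtain ⟨s, hs, h⟩ := exists_perm hk (w := WW l) this
    obtain ⟨σ, hσ⟩ := hs.perm
    refine ⟨σ, trivial, ?_⟩
    ext d
    refine and_congr_right fun d0 => and_congr_right fun dk => ?_
    rw [per_congr hσ]
    exact h d d0 dk

theorem main {k : ℕ} (hk : 3 ≤ k) :
    (Set.range fun (σ : Perm (Fin k)) (n : ℕ) => avs (ext σ) k n).ncard =
      ((fun w : List Bool => {i | 1 ≤ i ∧ i ≤ w.length ∧ (w.take i).Palindrome}) ''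
        {l | l.length = k + 1 ∧ l.Palindrome}).ncard := by
  rw [← Set.image_univ, ncard_ker _ _ (fun σ : Perm (Fin k) => PS (ext σ) k), image_eq hk]
  · apply ncard_ker
    rintro l ⟨l1, l2⟩ m ⟨m1, m2⟩
    simp only [Set.ext_iff, HS, Set.mem_ofPred_eq, l1, m1]
    have l3 := pal_iff.1 l2 0 (by omega)
    have m3 := pal_iff.1 m2 0 (by omega)
    rw [l1] at l3
    rw [m1] at m3
    constructor
    · intro h i
      refine and_congr_right fun i0 => and_congr_right fun ik => ?_
      rw [take_pal l1 l2 ik, take_pal m1 m2 ik]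
      by_cases a1 : i = 1
      · subst a1
        refine iff_of_true (fun j hj => ?_) (fun j hj => ?_)
        · obtain rfl : j = 0 := by omega
          simpa using l3
        · obtain rfl : j = 0 := by omega
          simpa using m3
      by_cases a2 : i = k + 1
      · subst a2
        exact iff_of_true (fun j hj => by simp) (fun j hj => by simp)
      have := h (k + 1 - i)
      rwa [and_congr_right_iff, imp_iff_right (by omega), and_congr_right_iff,
        imp_iff_right (by omega)] at this
    · intro h d
      refine and_congr_right fun d0 => and_congr_right fun dk => ?_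
      have := h (k + 1 - d)
      rwa [and_congr_right_iff, imp_iff_right (by omega), and_congr_right_iff,
        imp_iff_right (by omega), take_pal l1 l2 (by omega), take_pal m1 m2 (by omega),
        show k + 1 - (k + 1 - d) = d by omega] at this
  · intro σ _ τ _
    rw [funext_iff, avs_iff (ext_isP σ) (ext_isP τ)]
    simp only [Set.ext_iff, PS, Set.mem_ofPred_eq, and_congr_right_iff]

end Pool.Agent.H.MP_7acacd_co
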